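import Pool.Agent.Q121.OD.Fin

set_option autoImplicit false
set_option linter.unusedSectionVars false

/-! # Disjoint circuits with at most eleven edges -/

namespace Pool.Agent.Q121.OD

open Finset Pool.Agent.TH676.Z

variable {V E : Type} [Fintype V] [DecidableEq V] [Fintype E] [DecidableEq E]

theorem circ_z {src dst : E → V} (k : ℕ) (v : Fin (k + 2) → V) (ed : Fin (k + 2) → E)
    (hed : Function.Injective ed) (hJ : ∀ i, Jn src dst (ed i) (v i) (v (i + 1))) :
    ∃ z : E → ZMod 5, (∀ x, bd src dst z x = 0) ∧ (∀ e, z e = 0 ∨ z e = 1 ∨ z e = -1) ∧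
      ∀ e, z e ≠ 0 ↔ e ∈ univ.image ed := by
  classical
  let s : Fin (k + 2) → ZMod 5 := fun i => if src (ed i) = v i ∧ dst (ed i) = v (i + 1) then 1 else -1
  have hs : ∀ i, s i = 1 ∨ s i = -1 := by
    intro i
    simp only [s]
    split_ifs
    · exact Or.inl rfl
    · exact Or.inr rfl
  let z : E → ZMod 5 := fun e => ∑ i, if ed i = e then s i else 0
  have hz : ∀ i, z (ed i) = s i := by
    intro i
    simp only [z]
    rw [sum_eq_single i]
    · rw [if_pos rfl]
    · intro j _ hj
      exact if_neg fun h => hj (hed h)
    · intro h
      exact absurd (mem_univ i) h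
  have hz0 : ∀ e, e ∉ univ.image ed → z e = 0 := by
    intro e he
    simp only [z]
    refine sum_eq_zero fun i _ => if_neg fun h => he ?_
    exact mem_image.mpr ⟨i, mem_univ i, h⟩
  refine ⟨z, fun x => ?_, fun e => ?_, fun e => ?_⟩
  · simp only [z]
    rw [Three.bd_sum]
    have h1 : ∀ i, bd src dst (fun e => if ed i = e then s i else 0) x =
        (if v i = x then 1 else 0) - (if v (i + 1) = x then 1 else 0) := by
      intro i
      unfold bd
      rw [sum_eq_single (ed i)]
      · beta_reduce
        rw [if_pos rfl]
        simp only [s]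
        by_cases h : src (ed i) = v i ∧ dst (ed i) = v (i + 1)
        · rw [if_pos h, h.1, h.2]
        · rw [if_neg h]
          rcases hJ i with h2 | h2
          · exact absurd h2 h
          · rw [h2.1, h2.2]
            by_cases c1 : v i = x <;> by_cases c2 : v (i + 1) = x <;> simp [c1, c2]
      · intro e _ he
        beta_reduce
        rw [if_neg (Ne.symm he)]
        simp
      · intro h
        exact absurd (mem_univ _) h
    rw [sum_congr rfl fun i _ => h1 i, sum_sub_distrib, sub_eq_zero]
    exact (Equiv.sum_comp (Equiv.addRight (1 : Fin (k + 2)))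
      (fun i => if v i = x then (1 : ZMod 5) else 0)).symm
  · by_cases he : e ∈ univ.image ed
    · obtain ⟨i, -, rfl⟩ := mem_image.mp he
      rw [hz]
      exact Or.inr (hs i)
    · exact Or.inl (hz0 e he)
  · constructor
    · intro h
      by_contra he
      exact h (hz0 e he)
    · intro he
      obtain ⟨i, -, rfl⟩ := mem_image.mp he
      rw [hz]
      rcases hs i with h | h <;> rw [h] <;> decide

/-- the parity of a cut is the sum of the parities of the degrees -/
theorem crs_sum (src dst : E → V) (X : Finset V) :
    (crs src dst X).card % 2 = (∑ x ∈ X, (crs src dst {x}).card) % 2 := by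
  induction X using Finset.induction_on with
  | empty => simp [crs]
  | insert a X ha ih =>
    rw [sum_insert ha]
    have h1 := (counts src dst {a} X)
    obtain ⟨k1, k2, k3, k4, k5, k6⟩ := h1
    have h2 : ({a} : Finset V) ∩ X = ∅ := by
      rw [← disjoint_iff_inter_eq_empty, disjoint_singleton_left]
      exact ha
    have h3 : (crs src dst (({a} : Finset V) ∩ X)).card = 0 := by
      rw [h2]
      simp [crs]
    rw [insert_eq]
    omega

/-- a set of indices closed under successor -/
theorem all_of_succ {n : ℕ} {p : Fin (n + 2) → Prop} (h : ∀ a, p a → p (a + 1)) {a : Fin (n + 2)}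
    (ha : p a) (b : Fin (n + 2)) : p b := by
  have h1 : ∀ j : ℕ, p (a + j • (1 : Fin (n + 2))) := by
    intro j
    induction j with
    | zero => simpa using ha
    | succ j ih =>
      rw [succ_nsmul, ← add_assoc]
      exact h _ ih
  have h2 : (b - a).val • (1 : Fin (n + 2)) = b - a := by
    have h3 : ∀ x : Fin (n + 2), x.val • (1 : Fin (n + 2)) = x := by
      intro x
      refine Fin.induction (motive := fun x : Fin (n + 2) => x.val • (1 : Fin (n + 2)) = x)
        (by simp) (fun i hi => ?_) x
      rw [Fin.val_succ, succ_nsmul]
      rw [Fin.val_castSucc] at hi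
      rw [hi, Fin.coeSucc_eq_succ]
    exact h3 _
  have h4 := h1 (b - a).val
  rw [h2, add_sub_cancel] at h4
  exact h4

/-- Pairwise disjoint circuits with at most eleven edges: if at most 125 of them are left by an odd
number of edges or are single vertices of odd degree (the vertices on none of the circuits) then
there is a nowhere-zero flow. -/
theorem circuits {src dst : E → V} (hb : ∀ Y, (crs src dst Y).card ≠ 1) (m : ℕ)
    (k : Fin m → ℕ) (hk : ∀ i, k i ≤ 9) (v : (i : Fin m) → Fin (k i + 2) → V)
    (ed : (i : Fin m) → Fin (k i + 2) → E) (hed : ∀ i, Function.Injective (ed i))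
    (hJ : ∀ i a, Jn src dst (ed i a) (v i a) (v i (a + 1)))
    (hdis : ∀ i j, i ≠ j → Disjoint (univ.image (v i)) (univ.image (v j)))
    (ho : (univ.filter (fun i => (crs src dst (univ.image (v i))).card % 2 = 1)).card +
      (univ.filter (fun x => (∀ i, x ∉ univ.image (v i)) ∧
        (crs src dst {x}).card % 2 = 1)).card ≤ 125) : FlowOn src dst ∅ ∅ := by
  classical
  refine odd_comp hb m (fun i => univ.image (ed i)) (fun i => circ_z (k i) (v i) (ed i) (hed i) (hJ i))
    (fun i => ?_) ?_
  · refine (card_le_card sdiff_subset).trans (card_image_le.trans ?_)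
    rw [card_univ, Fintype.card_fin]
    have := hk i
    omega
  · intro X hX hF
    by_contra hcon
    push Not at hcon
    -- a set with a vertex of a circuit contains the circuit
    have hcl : ∀ j i a, v i a ∈ X j → univ.image (v i) ⊆ X j := by
      intro j i a ha
      have h1 : ∀ b, v i b ∈ X j := by
        refine all_of_succ (p := fun b => v i b ∈ X j) (fun b ih => ?_) ha
        have h2 := hJ i b
        have h3 : ed i b ∉ crs src dst (X j) := fun h =>
          disjoint_left.mp (hF j) h (mem_biUnion.mpr ⟨i, mem_univ i,
            mem_image.mpr ⟨_, mem_univ _, rfl⟩⟩)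
        rw [mem_crs, not_not] at h3
        rcases h2 with h2 | h2
        · rw [h2.1, h2.2] at h3
          exact h3.mp ih
        · rw [h2.1, h2.2] at h3
          exact h3.mpr ih
      intro x hx
      obtain ⟨b, -, rfl⟩ := mem_image.mp hx
      exact h1 b
    -- each of the sets contains an odd object
    let P : Finset (Fin m) := univ.filter (fun i => (crs src dst (univ.image (v i))).card % 2 = 1)
    let Q : Finset V := univ.filter (fun x => (∀ i, x ∉ univ.image (v i)) ∧
        (crs src dst {x}).card % 2 = 1)
    have key : ∀ j, (∃ i ∈ P, univ.image (v i) ⊆ X j) ∨ ∃ x ∈ Q, x ∈ X j := by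
      intro j
      by_contra hno
      push Not at hno
      obtain ⟨n1, n2⟩ := hno
      apply hcon j
      rw [crs_sum]
      let I : Finset (Fin m) := univ.filter (fun i => univ.image (v i) ⊆ X j)
      have hpart : X j = (X j).filter (fun x => ∀ i, x ∉ univ.image (v i)) ∪
          I.biUnion (fun i => univ.image (v i)) := by
        ext x
        simp only [mem_union, mem_filter, mem_biUnion, I, mem_univ, true_and]
        constructor
        · intro hx
          by_cases h : ∀ i, x ∉ univ.image (v i)
          · exact Or.inl ⟨hx, h⟩
          · push Not at h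
            obtain ⟨i, hi⟩ := h
            right
            refine ⟨i, ?_, hi⟩
            obtain ⟨a, -, ha⟩ := mem_image.mp hi
            exact hcl j i a (by rw [ha]; exact hx)
        · rintro (h | ⟨i, hi, hx⟩)
          · exact h.1
          · exact hi hx
      have hdisj : Disjoint ((X j).filter (fun x => ∀ i, x ∉ univ.image (v i)))
          (I.biUnion (fun i => univ.image (v i))) := by
        rw [disjoint_left]
        intro x hx hx'
        obtain ⟨i, -, hi⟩ := mem_biUnion.mp hx'
        exact (mem_filter.mp hx).2 i hi
      rw [hpart, sum_union hdisj, sum_biUnion (fun a _ b _ hab => hdis a b hab)]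
      have e1 : (∑ x ∈ (X j).filter (fun x => ∀ i, x ∉ univ.image (v i)),
          (crs src dst {x}).card) % 2 = 0 := by
        rw [Finset.sum_nat_mod]
        have : ∀ x ∈ (X j).filter (fun x => ∀ i, x ∉ univ.image (v i)),
            (crs src dst {x}).card % 2 = 0 := by
          intro x hx
          obtain ⟨h1, h2⟩ := mem_filter.mp hx
          by_contra h3
          exact n2 x (mem_filter.mpr ⟨mem_univ x, h2, by omega⟩) h1
        rw [sum_congr rfl this]
        simp
      have e2 : (∑ i ∈ I, ∑ x ∈ univ.image (v i), (crs src dst {x}).card) % 2 = 0 := by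
        rw [Finset.sum_nat_mod]
        have : ∀ i ∈ I, (∑ x ∈ univ.image (v i), (crs src dst {x}).card) % 2 = 0 := by
          intro i hi
          rw [← crs_sum]
          by_contra h3
          exact n1 i (mem_filter.mpr ⟨mem_univ i, by omega⟩) (mem_filter.mp hi).2
        rw [sum_congr rfl this]
        simp
      omega
    -- an injection
    have key2 : ∀ j, ∃ t : Fin m ⊕ V, t ∈ P.disjSum Q ∧
        (∀ i, t = Sum.inl i → univ.image (v i) ⊆ X j) ∧ ∀ x, t = Sum.inr x → x ∈ X j := by
      intro j
      rcases key j with ⟨i, hi, h⟩ | ⟨x, hx, h⟩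
      · refine ⟨Sum.inl i, by simpa using hi, ?_, ?_⟩
        · rintro i' h'
          rw [← Sum.inl.inj h']
          exact h
        · rintro x h'
          exact absurd h' (by simp)
      · refine ⟨Sum.inr x, by simpa using hx, ?_, ?_⟩
        · rintro i h'
          exact absurd h' (by simp)
        · rintro x' h'
          rw [← Sum.inr.inj h']
          exact h
    choose t ht1 ht2 ht3 using key2
    have hinj : Function.Injective t := by
      intro a b hab
      by_contra hne
      have hd := hX a b hne
      rcases h : t a with i | x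
      · have h1 := ht2 a i h
        have h2 := ht2 b i (hab ▸ h)
        have h3 : v i 0 ∈ univ.image (v i) := mem_image.mpr ⟨0, mem_univ _, rfl⟩
        exact disjoint_left.mp hd (h1 h3) (h2 h3)
      · exact disjoint_left.mp hd (ht3 a x h) (ht3 b x (hab ▸ h))
    have h1 : (univ : Finset (Fin 126)).card ≤ (P.disjSum Q).card :=
      card_le_card_of_injOn t (fun j _ => ht1 j) (fun a _ b _ h => hinj h)
    rw [card_univ, Fintype.card_fin, card_disjSum] at h1
    have h2 : P.card + Q.card ≤ 125 := ho
    omega

end Pool.Agent.Q121.OD
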