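import Pool.Agent.Q121.OD.Main
import Pool.Agent.Y335.FL.Local11

set_option autoImplicit false
set_option linter.unusedSectionVars false

/-! # The odd components of a union of cycles with at most eleven new edges -/

namespace Pool.Agent.Q121.OD

open Finset Pool.Agent.TH676.Z

variable {V E : Type} [Fintype V] [DecidableEq V] [Fintype E] [DecidableEq E]

/-- There are no 126 pairwise disjoint vertex sets with odd boundaries avoiding `F`. -/
theorem odd_comp {src dst : E → V} (hb : ∀ Y, (crs src dst Y).card ≠ 1) (m : ℕ)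
    (C : Fin m → Finset E)
    (hC : ∀ i, ∃ z : E → ZMod 5, (∀ v, bd src dst z v = 0) ∧ (∀ e, z e = 0 ∨ z e = 1 ∨ z e = -1) ∧
      ∀ e, z e ≠ 0 ↔ e ∈ C i)
    (hnew : ∀ i, (C i \ (univ.filter (fun j => j < i)).biUnion C).card ≤ 11)
    (ho : ∀ X : Fin 126 → Finset V, (∀ i j, i ≠ j → Disjoint (X i) (X j)) →
      (∀ i, Disjoint (crs src dst (X i)) (univ.biUnion C)) → ∃ i, (crs src dst (X i)).card % 2 = 0) :
    FlowOn src dst ∅ ∅ := by
  obtain ⟨r, h1, h2, -⟩ := Pool.Agent.Y335.FL.Local11.quot src dst (univ.biUnion C)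
  have h3 : FlowOn (r ∘ src) (r ∘ dst) ∅ ∅ := by
    refine few_odd _ _ _ le_rfl (br_comp hb r) ?_
    by_contra hcon
    obtain ⟨t⟩ : Nonempty (Fin 126 ↪ {x // x ∈ odds (r ∘ src) (r ∘ dst)}) := by
      apply Function.Embedding.nonempty_of_card_le
      rw [Fintype.card_fin, Fintype.card_coe]
      omega
    obtain ⟨i, hi⟩ := ho (fun i => univ.filter (fun x => r x ∈ ({(t i : V)} : Finset V))) (by
      intro i j hij
      rw [disjoint_left]
      intro x hx hy
      simp only [mem_filter, mem_univ, true_and, mem_singleton] at hx hy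
      exact hij (t.injective (Subtype.ext (hx.symm.trans hy)))) (by
      intro i
      rw [← crs_comp, disjoint_left]
      intro e he hF
      rw [mem_crs] at he
      apply he
      simp only [Function.comp_apply, h1 e hF])
    rw [← crs_comp] at hi
    have h4 := (mem_filter.mp (t i).2).2
    omega
  have h4 := h2 ∅ h3
  rw [union_empty] at h4
  exact Pool.Agent.Y335.FL.lift_all V E src dst m C hC hnew h4

end Pool.Agent.Q121.OD
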