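import Pool.Agent.Q121.OD.Split
import Pool.Agent.TH676.Z.Cut3
import Pool.Agent.TH676.Z.Three

set_option autoImplicit false
set_option linter.unusedSectionVars false

/-! # Flows of a graph from flows of the two graphs obtained by contracting one side of a cut with
at most three edges -/

namespace Pool.Agent.Q121.OD

open Finset Pool.Agent.TH676.Z

variable {V E : Type} [Fintype V] [DecidableEq V] [Fintype E] [DecidableEq E]

/-- identify the vertices of `Y` with `y` -/
def merge (Y : Finset V) (y : V) (x : V) : V := if x ∈ Y then y else x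

theorem merge_eq {Y : Finset V} {y : V} (hy : y ∈ Y) {v : V} (hv : v ∉ Y) (x : V) :
    merge Y y x = v ↔ x = v := by
  unfold merge
  by_cases hx : x ∈ Y
  · rw [if_pos hx]
    constructor
    · rintro rfl
      exact absurd hy hv
    · rintro rfl
      exact absurd hx hv
  · rw [if_neg hx]

theorem bd_merge {src dst : E → V} {Y : Finset V} {y : V} (hy : y ∈ Y) {v : V} (hv : v ∉ Y)
    (f : E → ZMod 5) : bd (merge Y y ∘ src) (merge Y y ∘ dst) f v = bd src dst f v := by
  unfold bd
  refine sum_congr rfl fun e _ => ?_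
  simp only [Function.comp_apply, merge_eq hy hv]

theorem crs_comp (src dst : E → V) (m : V → V) (X : Finset V) :
    crs (m ∘ src) (m ∘ dst) X = crs src dst (univ.filter (fun x => m x ∈ X)) := by
  ext e
  simp only [mem_crs, Function.comp_apply, mem_filter, mem_univ, true_and]

theorem br_comp {src dst : E → V} (hb : ∀ Y, (crs src dst Y).card ≠ 1) (m : V → V) (X : Finset V) :
    (crs (m ∘ src) (m ∘ dst) X).card ≠ 1 := by
  rw [crs_comp]
  exact hb _

/-- two flows at a cut with at most three edges -/
theorem glue_flows {src dst : E → V} (hb : ∀ Y, (crs src dst Y).card ≠ 1) {Y : Finset V}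
    (h3 : (crs src dst Y).card ≤ 3) {f g : E → ZMod 5} (hf : ∀ v ∈ Y, bd src dst f v = 0)
    (hg : ∀ v, v ∉ Y → bd src dst g v = 0) (hf0 : ∀ e, f e ≠ 0) (hg0 : ∀ e, g e ≠ 0) :
    FlowOn src dst ∅ ∅ := by
  have : Fact (Nat.Prime 5) := ⟨by norm_num⟩
  have sf := Cut3.sum_cut hf
  have sg : ∑ e ∈ crs src dst Y, (if src e ∈ Y then g e else - g e) = 0 := by
    have h1 := Cut3.sum_cut (src := src) (dst := dst) (f := g) (Y := Yᶜ)
      (fun v hv => hg v (by simpa using hv))
    rw [crs_compl] at h1
    have h2 : ∑ e ∈ crs src dst Y, (if src e ∈ Y then g e else - g e) =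
        - ∑ e ∈ crs src dst Y, (if src e ∈ Yᶜ then g e else - g e) := by
      rw [← sum_neg_distrib]
      refine sum_congr rfl fun e _ => ?_
      by_cases h : src e ∈ Y
      · have : src e ∉ Yᶜ := by simp [h]
        rw [if_pos h, if_neg this, neg_neg]
      · have : src e ∈ Yᶜ := by simp [h]
        rw [if_neg h, if_pos this]
    rw [h2, h1, neg_zero]
  have h1 := hb Y
  have hc : (crs src dst Y).card = 0 ∨ (crs src dst Y).card = 2 ∨ (crs src dst Y).card = 3 := by
    omega
  rcases hc with hc | hc | hc
  · refine Cut3.glue (f1 := f) (f2 := g) hf hg (fun e _ => hf0 e) (fun e _ _ => hg0 e) ?_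
    intro e he
    rw [card_eq_zero.mp hc] at he
    exact absurd he (notMem_empty _)
  · obtain ⟨a, b, hab, hY⟩ := card_eq_two.mp hc
    rw [hY, sum_pair hab] at sf sg
    -- the flow `f` times a constant
    have hl : g a * (f a)⁻¹ ≠ 0 := mul_ne_zero (hg0 a) (inv_ne_zero (hf0 a))
    refine Cut3.glue (f1 := fun e => g a * (f a)⁻¹ * f e) (f2 := g) (Y := Y) ?_ hg
      (fun e _ => mul_ne_zero hl (hf0 e)) (fun e _ _ => hg0 e) ?_
    · intro v hv
      have h2 := Three.bd_smul src dst (g a * (f a)⁻¹) f v
      rw [hf v hv, mul_zero] at h2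
      exact h2
    · intro e he
      rw [hY, mem_insert, mem_singleton] at he
      have ha : g a * (f a)⁻¹ * f a = g a := by
        rw [mul_assoc, inv_mul_cancel₀ (hf0 a), mul_one]
      rcases he with rfl | rfl
      · exact ha
      · show g a * (f a)⁻¹ * f e = g e
        have k1 : (if src e ∈ Y then f e else - f e) = - (if src a ∈ Y then f a else - f a) :=
          eq_neg_of_add_eq_zero_right sf
        have k2 : (if src e ∈ Y then g e else - g e) = - (if src a ∈ Y then g a else - g a) :=
          eq_neg_of_add_eq_zero_right sg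
        have k3 : g a * (f a)⁻¹ * (if src e ∈ Y then f e else - f e) =
            (if src e ∈ Y then g e else - g e) := by
          rw [k1, k2]
          split_ifs
          · rw [mul_neg, ha]
          · rw [neg_neg, neg_neg, ha]
        by_cases c : src e ∈ Y
        · rw [if_pos c, if_pos c] at k3
          exact k3
        · rw [if_neg c, if_neg c, mul_neg] at k3
          exact neg_injective k3
  · obtain ⟨f', b1, b2, b3⟩ := three V E src dst Y hc f hf (fun e _ => hf0 e) g
      (fun e _ => hg0 e) sg
    exact Cut3.glue b1 hg b2 (fun e _ _ => hg0 e) b3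

/-- flows after contracting one side -/
theorem glue_merge {src dst : E → V} (hb : ∀ Y, (crs src dst Y).card ≠ 1) {Y : Finset V} {y z : V}
    (hy : y ∈ Y) (hz : z ∉ Y) (h3 : (crs src dst Y).card ≤ 3)
    (h1 : FlowOn (merge Y y ∘ src) (merge Y y ∘ dst) ∅ ∅)
    (h2 : FlowOn (merge Yᶜ z ∘ src) (merge Yᶜ z ∘ dst) ∅ ∅) : FlowOn src dst ∅ ∅ := by
  obtain ⟨g, g1, -, g3⟩ := h1
  obtain ⟨f, f1, -, f3⟩ := h2
  have hz' : z ∈ Yᶜ := by simp [hz]
  refine glue_flows hb h3 (f := f) (g := g) (fun v hv => ?_) (fun v hv => ?_)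
    (fun e => f3 e (notMem_empty _) (notMem_empty _))
    (fun e => g3 e (notMem_empty _) (notMem_empty _))
  · rw [← bd_merge hz' (by simp [hv])]
    exact f1 v
  · rw [← bd_merge hy hv]
    exact g1 v

end Pool.Agent.Q121.OD
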