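import Pool.Agent.Q121.OD.Glue
import Pool.Agent.Y335.FL.Main
import Pool.Agent.Y358.IN.Dirac2

set_option autoImplicit false
set_option linter.unusedSectionVars false

/-! # Graphs with at most 125 vertices of odd degree -/

namespace Pool.Agent.Q121.OD

open Finset Pool.Agent.TH676.Z

variable {V E : Type} [Fintype V] [DecidableEq V] [Fintype E] [DecidableEq E]

/-- the vertices with an odd number of proper edges -/
def odds (src dst : E → V) : Finset V :=
  univ.filter (fun v => (crs src dst {v}).card % 2 = 1)

theorem dg_eq (src dst : E → V) (v : V) :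
    Pool.Agent.Y335.FL.dg src dst v = (crs src dst {v}).card := by
  unfold Pool.Agent.Y335.FL.dg
  congr 1
  ext e
  rw [mem_crs, mem_singleton, mem_singleton]
  simp only [mem_filter, mem_univ, true_and]
  constructor
  · rintro ⟨h1, h2 | h2⟩ h3
    · exact h1 (h2.trans (h3.mp h2).symm)
    · exact h1 ((h3.mpr h2).trans h2.symm)
  · intro h
    refine ⟨fun h1 => h (by rw [h1]), ?_⟩
    by_contra h2
    rw [not_or] at h2
    exact h ⟨fun h3 => absurd h3 h2.1, fun h3 => absurd h3 h2.2⟩

/-- the base case: all degrees at most three -/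
theorem base {src dst : E → V} (hb : ∀ Y, (crs src dst Y).card ≠ 1)
    (ho : (odds src dst).card ≤ 125) (hd : ∀ v, (crs src dst {v}).card ≤ 3) :
    FlowOn src dst ∅ ∅ := by
  classical
  refine Pool.Agent.Y358.IN.flow_of_weight' Pool.Agent.Y335.FL.contract_all
    Pool.Agent.Y335.FL.ahl src dst ?_ (fun Y _ => by rw [sdiff_empty]; exact hb Y)
  have h1 : ∀ v ∈ univ.filter (fun v => 3 ≤ Pool.Agent.Y335.FL.dg src dst v),
      Pool.Agent.Y358.IN.wu src dst v ≤ 1 := by
    intro v _
    unfold Pool.Agent.Y358.IN.wu
    have h4 : (3 : ℝ) ≤ ((max (Pool.Agent.Y358.IN.nt src dst v).card 3 : ℕ) : ℝ) := by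
      exact_mod_cast le_max_right _ _
    rw [div_le_one (by linarith)]
    linarith
  refine lt_of_le_of_lt (sum_le_card_nsmul _ _ _ h1) ?_
  rw [nsmul_eq_mul, mul_one]
  have h2 : univ.filter (fun v => 3 ≤ Pool.Agent.Y335.FL.dg src dst v) ⊆ odds src dst := by
    intro v hv
    have h3 := (mem_filter.mp hv).2
    rw [dg_eq] at h3
    have h4 := hd v
    refine mem_filter.mpr ⟨mem_univ v, ?_⟩
    omega
  have h5 := (card_le_card h2).trans ho
  have h6 : (((univ.filter (fun v => 3 ≤ Pool.Agent.Y335.FL.dg src dst v)).card : ℕ) : ℝ) ≤ 125 := by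
    exact_mod_cast h5
  linarith

theorem odds_new {src dst : E → V} {v : V} {e f : E} (hef : e ≠ f) (he : At src dst v e)
    (hf : At src dst v f) : odds (ns src dst v e f) (nd src dst v e f) = odds src dst := by
  unfold odds
  ext x
  simp only [mem_filter, mem_univ, true_and]
  rw [crs_par hef he hf]

/-- the proper edges -/
theorem nl_new {src dst : E → V} {v : V} {e f : E} (hef : e ≠ f) (he : At src dst v e)
    (hf : At src dst v f) :
    (univ.filter (fun x => ns src dst v e f x ≠ nd src dst v e f x)).card <
      (univ.filter (fun x => src x ≠ dst x)).card := by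
  apply card_lt_card
  rw [ssubset_iff_of_subset]
  · refine ⟨f, ?_, ?_⟩
    · refine mem_filter.mpr ⟨mem_univ _, fun h => ?_⟩
      unfold At at hf
      rw [mem_crs, h] at hf
      exact hf Iff.rfl
    · intro h
      have h1 := (mem_filter.mp h).2
      apply h1
      simp only [ns, nd, if_neg hef.symm, if_true]
  · intro x hx
    have h1 := (mem_filter.mp hx).2
    refine mem_filter.mpr ⟨mem_univ _, fun h => ?_⟩
    by_cases hxe : x = e
    · subst hxe
      unfold At at he
      rw [mem_crs, h] at he
      exact he Iff.rfl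
    · by_cases hxf : x = f
      · subst hxf
        apply h1
        simp only [ns, nd, if_neg hef.symm, if_true]
      · apply h1
        simp only [ns, nd, if_neg hxe, if_neg hxf]
        exact h

/-- **Graphs with at most 125 vertices of odd degree.** -/
theorem few_odd : ∀ (n : ℕ) (src dst : E → V), (univ.filter (fun x => src x ≠ dst x)).card ≤ n →
    (∀ Y, (crs src dst Y).card ≠ 1) → (odds src dst).card ≤ 125 → FlowOn src dst ∅ ∅ := by
  intro n
  induction n with
  | zero =>
    intro src dst hn hb ho
    refine base hb ho fun v => ?_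
    have h1 : (crs src dst {v}).card ≤ (univ.filter (fun x => src x ≠ dst x)).card := by
      apply card_le_card
      intro x hx
      refine mem_filter.mpr ⟨mem_univ _, fun h => ?_⟩
      rw [mem_crs, h] at hx
      exact hx Iff.rfl
    omega
  | succ n ih =>
    intro src dst hn hb ho
    by_cases hd : ∀ v, (crs src dst {v}).card ≤ 3
    · exact base hb ho hd
    · push Not at hd
      obtain ⟨v, hv⟩ := hd
      obtain ⟨t⟩ : Nonempty (Fin 4 ↪ {x // x ∈ crs src dst {v}}) := by
        apply Function.Embedding.nonempty_of_card_le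
        rw [Fintype.card_fin, Fintype.card_coe]
        omega
      obtain ⟨i, hi, hg⟩ := good_pair hb (v := v) (fun i => (t i : E))
        (fun i j h => t.injective (Subtype.ext h)) (fun i => (t i).2)
      have hne : ((t 0 : {x // x ∈ crs src dst {v}}) : E) ≠ t i := fun h =>
        hi (t.injective (Subtype.ext h)).symm
      have h0 : At src dst v (t 0 : E) := (t 0).2
      have h1 : At src dst v (t i : E) := (t i).2
      refine flow_back hne h0 h1 (ih _ _ ?_ (new_bridgeless hb hne h0 h1 hg) ?_)
      · have := nl_new hne h0 h1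
        omega
      · rw [odds_new hne h0 h1]
        exact ho

end Pool.Agent.Q121.OD
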