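import Pool.Agent.TH676.Z.Stm

set_option autoImplicit false
set_option linter.unusedSectionVars false

/-! # Splitting off two edges at a vertex (Fleischner), flows with values in `ZMod 5` -/

namespace Pool.Agent.Q121.OD

open Finset Pool.Agent.TH676.Z

variable {V E : Type} [Fintype V] [DecidableEq V] [Fintype E] [DecidableEq E]

theorem mem_crs {src dst : E → V} {Y : Finset V} {e : E} :
    e ∈ crs src dst Y ↔ ¬ (src e ∈ Y ↔ dst e ∈ Y) := by simp [crs]

theorem card_ind (A : Finset E) : A.card = ∑ e, if e ∈ A then 1 else 0 := by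
  rw [← card_filter]
  congr 1
  ext e
  simp

/-- the numbers of the edges between the four parts determined by two sets -/
theorem counts (src dst : E → V) (Y Z : Finset V) :
    (crs src dst Y).card = (crs src dst (Y ∩ Z) ∩ crs src dst (Y ∪ Z)).card
      + (crs src dst (Y ∩ Z) ∩ crs src dst (Z \ Y)).card
      + (crs src dst (Y \ Z) ∩ crs src dst (Y ∪ Z)).card
      + (crs src dst (Y \ Z) ∩ crs src dst (Z \ Y)).card ∧
    (crs src dst Z).card = (crs src dst (Y ∩ Z) ∩ crs src dst (Y ∪ Z)).card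
      + (crs src dst (Y ∩ Z) ∩ crs src dst (Y \ Z)).card
      + (crs src dst (Z \ Y) ∩ crs src dst (Y ∪ Z)).card
      + (crs src dst (Y \ Z) ∩ crs src dst (Z \ Y)).card ∧
    (crs src dst (Y ∩ Z)).card = (crs src dst (Y ∩ Z) ∩ crs src dst (Y ∪ Z)).card
      + (crs src dst (Y ∩ Z) ∩ crs src dst (Y \ Z)).card
      + (crs src dst (Y ∩ Z) ∩ crs src dst (Z \ Y)).card ∧
    (crs src dst (Y \ Z)).card = (crs src dst (Y ∩ Z) ∩ crs src dst (Y \ Z)).card
      + (crs src dst (Y \ Z) ∩ crs src dst (Y ∪ Z)).card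
      + (crs src dst (Y \ Z) ∩ crs src dst (Z \ Y)).card ∧
    (crs src dst (Z \ Y)).card = (crs src dst (Y ∩ Z) ∩ crs src dst (Z \ Y)).card
      + (crs src dst (Z \ Y) ∩ crs src dst (Y ∪ Z)).card
      + (crs src dst (Y \ Z) ∩ crs src dst (Z \ Y)).card ∧
    (crs src dst (Y ∪ Z)).card = (crs src dst (Y ∩ Z) ∩ crs src dst (Y ∪ Z)).card
      + (crs src dst (Y \ Z) ∩ crs src dst (Y ∪ Z)).card
      + (crs src dst (Z \ Y) ∩ crs src dst (Y ∪ Z)).card := by
  refine ⟨?_, ?_, ?_, ?_, ?_, ?_⟩ <;>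
  · simp only [card_ind, ← sum_add_distrib]
    refine sum_congr rfl fun e _ => ?_
    simp only [mem_inter, mem_crs, mem_union, mem_sdiff]
    by_cases h1 : src e ∈ Y <;> by_cases h2 : src e ∈ Z <;> by_cases h3 : dst e ∈ Y <;>
      by_cases h4 : dst e ∈ Z <;> simp [h1, h2, h3, h4]

/-- `e` is a proper edge at `v` -/
def At (src dst : E → V) (v : V) (e : E) : Prop := e ∈ crs src dst {v}

/-- the other end -/
def oth (src dst : E → V) (v : V) (e : E) : V := if src e = v then dst e else src e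

theorem at_ends {src dst : E → V} {v : V} {e : E} (h : At src dst v e) :
    oth src dst v e ≠ v ∧ ((src e = v ∧ dst e = oth src dst v e) ∨
      (dst e = v ∧ src e = oth src dst v e)) := by
  unfold At at h
  rw [mem_crs, mem_singleton, mem_singleton] at h
  unfold oth
  by_cases h1 : src e = v
  · have h2 : dst e ≠ v := fun h3 => h ⟨fun _ => h3, fun _ => h1⟩
    rw [if_pos h1]
    exact ⟨h2, Or.inl ⟨h1, rfl⟩⟩
  · have h2 : dst e = v := by
      by_contra h3
      exact h ⟨fun h4 => absurd h4 h1, fun h4 => absurd h4 h3⟩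
    rw [if_neg h1]
    exact ⟨h1, Or.inr ⟨h2, rfl⟩⟩

theorem at_crs {src dst : E → V} {v : V} {e : E} (h : At src dst v e) {Y : Finset V}
    (hv : v ∉ Y) : e ∈ crs src dst Y ↔ oth src dst v e ∈ Y := by
  obtain ⟨-, h1 | h1⟩ := at_ends h
  · rw [mem_crs, h1.1, h1.2]
    tauto
  · rw [mem_crs, h1.1, h1.2]
    tauto

/-- two bad sets with a common edge give a cut with three given edges at `v` -/
theorem bad_union {src dst : E → V} (hb : ∀ Y, (crs src dst Y).card ≠ 1) {v : V} {a b c : E}
    (ha : At src dst v a) (hb' : At src dst v b) (hc : At src dst v c)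
    {Y Z : Finset V} (hY : v ∉ Y) (hZ : v ∉ Z) (h1 : a ∈ crs src dst Y)
    (h2 : b ∈ crs src dst Y) (h3 : (crs src dst Y).card = 3) (h4 : a ∈ crs src dst Z)
    (h5 : c ∈ crs src dst Z) (h6 : (crs src dst Z).card = 3) :
    ∃ X : Finset V, v ∉ X ∧ a ∈ crs src dst X ∧ b ∈ crs src dst X ∧ c ∈ crs src dst X ∧
      (crs src dst X).card = 3 := by
  by_cases h7 : b ∈ crs src dst Z
  · exact ⟨Z, hZ, h4, h7, h5, h6⟩
  by_cases h8 : c ∈ crs src dst Y
  · exact ⟨Y, hY, h1, h2, h8, h3⟩
  have hU : v ∉ Y ∪ Z := by simp [hY, hZ]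
  obtain ⟨k1, k2, k3, k4, k5, k6⟩ := counts src dst Y Z
  have hP : v ∉ Y ∩ Z := by simp [hY]
  have hQ : v ∉ Y \ Z := by simp [hY]
  have hR : v ∉ Z \ Y := by simp [hZ]
  rw [at_crs ha hY] at h1
  rw [at_crs hb' hY] at h2
  rw [at_crs ha hZ] at h4
  rw [at_crs hc hZ] at h5
  rw [at_crs hb' hZ] at h7
  rw [at_crs hc hY] at h8
  have c1 : 1 ≤ (crs src dst (Y ∩ Z) ∩ crs src dst (Y ∪ Z)).card := by
    refine card_pos.mpr ⟨a, ?_⟩
    rw [mem_inter, at_crs ha hP, at_crs ha hU, mem_inter, mem_union]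
    exact ⟨⟨h1, h4⟩, Or.inl h1⟩
  have c2 : 1 ≤ (crs src dst (Y \ Z) ∩ crs src dst (Y ∪ Z)).card := by
    refine card_pos.mpr ⟨b, ?_⟩
    rw [mem_inter, at_crs hb' hQ, at_crs hb' hU, mem_sdiff, mem_union]
    exact ⟨⟨h2, h7⟩, Or.inl h2⟩
  have c3 : 1 ≤ (crs src dst (Z \ Y) ∩ crs src dst (Y ∪ Z)).card := by
    refine card_pos.mpr ⟨c, ?_⟩
    rw [mem_inter, at_crs hc hR, at_crs hc hU, mem_sdiff, mem_union]
    exact ⟨⟨h5, h8⟩, Or.inr h5⟩
  have b1 := hb (Y ∩ Z)
  have b2 := hb (Y \ Z)
  have b3 := hb (Z \ Y)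
  refine ⟨Y ∪ Z, hU, ?_, ?_, ?_, ?_⟩
  · rw [at_crs ha hU, mem_union]; exact Or.inl h1
  · rw [at_crs hb' hU, mem_union]; exact Or.inl h2
  · rw [at_crs hc hU, mem_union]; exact Or.inr h5
  · omega

theorem cut_eq {src dst : E → V} {a b c : E} (hab : a ≠ b) (hac : a ≠ c) (hbc : b ≠ c)
    {Y : Finset V} (h1 : a ∈ crs src dst Y) (h2 : b ∈ crs src dst Y) (h2' : c ∈ crs src dst Y)
    (h3 : (crs src dst Y).card = 3) : crs src dst Y = {a, b, c} := by
  symm
  apply eq_of_subset_of_card_le
  · intro x hx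
    simp only [mem_insert, mem_singleton] at hx
    rcases hx with rfl | rfl | rfl <;> assumption
  · rw [h3, card_insert_of_notMem, card_insert_of_notMem, card_singleton]
    · simpa using hbc
    · simp [hab, hac]

/-- two cuts of size three with two common edges at `v` and different third edges -/
theorem no_two {src dst : E → V} (hb : ∀ Y, (crs src dst Y).card ≠ 1) {v : V} {a b c d : E}
    (ha : At src dst v a) (hb' : At src dst v b) (hc : At src dst v c) (hd : At src dst v d)
    (hab : a ≠ b) (hac : a ≠ c) (hbc : b ≠ c) (had : a ≠ d) (hbd : b ≠ d) (hcd : c ≠ d)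
    {Y Z : Finset V} (hY : v ∉ Y) (hZ : v ∉ Z) (h1 : a ∈ crs src dst Y)
    (h2 : b ∈ crs src dst Y) (h2' : c ∈ crs src dst Y) (h3 : (crs src dst Y).card = 3)
    (h4 : a ∈ crs src dst Z) (h5 : b ∈ crs src dst Z) (h5' : d ∈ crs src dst Z)
    (h6 : (crs src dst Z).card = 3) : False := by
  have e1 := cut_eq hab hac hbc h1 h2 h2' h3
  have e2 := cut_eq hab had hbd h4 h5 h5' h6
  have h7 : c ∉ crs src dst Z := by
    rw [e2]
    simp [hac.symm, hbc.symm, hcd]
  have h8 : d ∉ crs src dst Y := by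
    rw [e1]
    simp [had.symm, hbd.symm, hcd.symm]
  have hU : v ∉ Y ∪ Z := by simp [hY, hZ]
  obtain ⟨k1, k2, k3, k4, k5, k6⟩ := counts src dst Y Z
  have hP : v ∉ Y ∩ Z := by simp [hY]
  have hQ : v ∉ Y \ Z := by simp [hY]
  have hR : v ∉ Z \ Y := by simp [hZ]
  rw [at_crs ha hY] at h1
  rw [at_crs hb' hY] at h2
  rw [at_crs hc hY] at h2'
  rw [at_crs ha hZ] at h4
  rw [at_crs hb' hZ] at h5
  rw [at_crs hd hZ] at h5'
  rw [at_crs hc hZ] at h7
  rw [at_crs hd hY] at h8
  have c1 : 2 ≤ (crs src dst (Y ∩ Z) ∩ crs src dst (Y ∪ Z)).card := by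
    have : ({a, b} : Finset E) ⊆ crs src dst (Y ∩ Z) ∩ crs src dst (Y ∪ Z) := by
      intro x hx
      simp only [mem_insert, mem_singleton] at hx
      rcases hx with rfl | rfl
      · rw [mem_inter, at_crs ha hP, at_crs ha hU, mem_inter, mem_union]
        exact ⟨⟨h1, h4⟩, Or.inl h1⟩
      · rw [mem_inter, at_crs hb' hP, at_crs hb' hU, mem_inter, mem_union]
        exact ⟨⟨h2, h5⟩, Or.inl h2⟩
    calc 2 = ({a, b} : Finset E).card := by rw [card_pair hab]
      _ ≤ _ := card_le_card this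
  have c2 : 1 ≤ (crs src dst (Y \ Z) ∩ crs src dst (Y ∪ Z)).card := by
    refine card_pos.mpr ⟨c, ?_⟩
    rw [mem_inter, at_crs hc hQ, at_crs hc hU, mem_sdiff, mem_union]
    exact ⟨⟨h2', h7⟩, Or.inl h2'⟩
  have c3 : 1 ≤ (crs src dst (Z \ Y) ∩ crs src dst (Y ∪ Z)).card := by
    refine card_pos.mpr ⟨d, ?_⟩
    rw [mem_inter, at_crs hd hR, at_crs hd hU, mem_sdiff, mem_union]
    exact ⟨⟨h5', h8⟩, Or.inr h5'⟩
  have b2 := hb (Y \ Z)
  omega

/-- Fleischner's splitting lemma: of three pairs with a common edge one is good -/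
theorem good_pair {src dst : E → V} (hb : ∀ Y, (crs src dst Y).card ≠ 1) {v : V} (e : Fin 4 → E)
    (hi : Function.Injective e) (he : ∀ i, At src dst v (e i)) :
    ∃ i, i ≠ 0 ∧ ∀ Y : Finset V, v ∉ Y → e 0 ∈ crs src dst Y → e i ∈ crs src dst Y →
      (crs src dst Y).card ≠ 3 := by
  by_contra hcon
  push Not at hcon
  have ne : ∀ i j, i ≠ j → e i ≠ e j := fun i j hij h => hij (hi h)
  obtain ⟨Y1, a1, a2, a3, a4⟩ := hcon 1 (by decide)
  obtain ⟨Y2, b1, b2, b3, b4⟩ := hcon 2 (by decide)
  obtain ⟨Y3, c1, c2, c3, c4⟩ := hcon 3 (by decide)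
  obtain ⟨X, x1, x2, x3, x4, x5⟩ := bad_union hb (he 0) (he 1) (he 2) a1 b1 a2 a3 a4 b2 b3 b4
  obtain ⟨Z, z1, z2, z3, z4, z5⟩ := bad_union hb (he 0) (he 1) (he 3) a1 c1 a2 a3 a4 c2 c3 c4
  exact no_two hb (he 0) (he 1) (he 2) (he 3) (ne 0 1 (by decide)) (ne 0 2 (by decide))
    (ne 1 2 (by decide)) (ne 0 3 (by decide)) (ne 1 3 (by decide)) (ne 2 3 (by decide))
    x1 z1 x2 x3 x4 x5 z2 z3 z4 z5

/-! ## The graph obtained by splitting off `e` and `f` at `v`: `e` joins the two other ends and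
`f` is a loop -/

/-- new first ends -/
def ns (src dst : E → V) (v : V) (e f x : E) : V :=
  if x = e then oth src dst v e else if x = f then v else src x

/-- new second ends -/
def nd (src dst : E → V) (v : V) (e f x : E) : V :=
  if x = e then oth src dst v f else if x = f then v else dst x

theorem card_two (A : Finset E) {e f : E} (hef : e ≠ f) :
    A.card = (A \ {e, f}).card + ((if e ∈ A then 1 else 0) + (if f ∈ A then 1 else 0)) := by
  have h1 : A.card = (A \ {e, f}).card + (A ∩ {e, f}).card := by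
    rw [add_comm, card_inter_add_card_sdiff]
  rw [h1]
  congr 1
  by_cases he : e ∈ A <;> by_cases hf : f ∈ A
  · have : A ∩ {e, f} = {e, f} := inter_eq_right.mpr (by
      intro x hx
      simp only [mem_insert, mem_singleton] at hx
      rcases hx with rfl | rfl <;> assumption)
    rw [this, card_pair hef]
    simp [he, hf]
  · have : A ∩ {e, f} = {e} := by
      ext x
      simp only [mem_inter, mem_insert, mem_singleton]
      constructor
      · rintro ⟨h2, rfl | rfl⟩
        · rfl
        · exact absurd h2 hf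
      · rintro rfl
        exact ⟨he, Or.inl rfl⟩
    rw [this, card_singleton]
    simp [he, hf]
  · have : A ∩ {e, f} = {f} := by
      ext x
      simp only [mem_inter, mem_insert, mem_singleton]
      constructor
      · rintro ⟨h2, rfl | rfl⟩
        · exact absurd h2 he
        · rfl
      · rintro rfl
        exact ⟨hf, Or.inr rfl⟩
    rw [this, card_singleton]
    simp [he, hf]
  · have : A ∩ {e, f} = ∅ := by
      ext x
      simp only [mem_inter, mem_insert, mem_singleton, notMem_empty, iff_false]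
      rintro ⟨h2, rfl | rfl⟩
      · exact he h2
      · exact hf h2
    rw [this, card_empty]
    simp [he, hf]

theorem crs_compl (src dst : E → V) (Y : Finset V) : crs src dst Yᶜ = crs src dst Y := by
  ext x
  rw [mem_crs, mem_crs, mem_compl, mem_compl]
  tauto

theorem crs_new {src dst : E → V} {v : V} {e f : E} (hef : e ≠ f) (he : At src dst v e)
    (hf : At src dst v f) {Y : Finset V} (hv : v ∉ Y) :
    (crs src dst Y).card = (crs (ns src dst v e f) (nd src dst v e f) Y).card +
      (if e ∈ crs src dst Y ∧ f ∈ crs src dst Y then 2 else 0) := by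
  rw [card_two (crs src dst Y) hef, card_two (crs (ns src dst v e f) (nd src dst v e f) Y) hef]
  have h1 : crs src dst Y \ {e, f} = crs (ns src dst v e f) (nd src dst v e f) Y \ {e, f} := by
    ext x
    simp only [mem_sdiff, mem_insert, mem_singleton, not_or, mem_crs, ns, nd]
    refine and_congr_left fun h => ?_
    rw [if_neg h.1, if_neg h.2, if_neg h.1, if_neg h.2]
  have h2 : e ∈ crs (ns src dst v e f) (nd src dst v e f) Y ↔
      ¬ (e ∈ crs src dst Y ↔ f ∈ crs src dst Y) := by
    rw [mem_crs, at_crs he hv, at_crs hf hv]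
    simp only [ns, nd, if_true]
  have h3 : f ∉ crs (ns src dst v e f) (nd src dst v e f) Y := by
    rw [mem_crs]
    simp only [ns, nd, if_neg hef.symm, if_true, not_true, not_false_iff, iff_self]
  rw [h1]
  by_cases h4 : e ∈ crs src dst Y <;> by_cases h5 : f ∈ crs src dst Y <;>
    simp [h2, h3, h4, h5]

/-- the parity of the cuts does not change -/
theorem crs_par {src dst : E → V} {v : V} {e f : E} (hef : e ≠ f) (he : At src dst v e)
    (hf : At src dst v f) (Y : Finset V) :
    (crs (ns src dst v e f) (nd src dst v e f) Y).card % 2 = (crs src dst Y).card % 2 := by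
  by_cases hv : v ∈ Y
  · rw [← crs_compl, ← crs_compl src dst Y, crs_new hef he hf (Y := Yᶜ) (by simp [hv])]
    split_ifs <;> omega
  · rw [crs_new hef he hf hv]
    split_ifs <;> omega

/-- splitting off a good pair gives no bridge -/
theorem new_bridgeless {src dst : E → V} (hb : ∀ Y, (crs src dst Y).card ≠ 1) {v : V} {e f : E}
    (hef : e ≠ f) (he : At src dst v e) (hf : At src dst v f)
    (hg : ∀ Y : Finset V, v ∉ Y → e ∈ crs src dst Y → f ∈ crs src dst Y →
      (crs src dst Y).card ≠ 3) (Y : Finset V) :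
    (crs (ns src dst v e f) (nd src dst v e f) Y).card ≠ 1 := by
  have key : ∀ Y : Finset V, v ∉ Y → (crs (ns src dst v e f) (nd src dst v e f) Y).card ≠ 1 := by
    intro Y hv h1
    have h2 := crs_new hef he hf hv
    have h3 := hb Y
    have h4 := hg Y hv
    split_ifs at h2 with h5
    · exact h4 h5.1 h5.2 (by omega)
    · omega
  by_cases hv : v ∈ Y
  · rw [← crs_compl]
    exact key _ (by simp [hv])
  · exact key _ hv

/-- a flow after splitting off gives a flow -/
theorem flow_back {src dst : E → V} {v : V} {e f : E} (hef : e ≠ f) (he : At src dst v e)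
    (hf : At src dst v f) (h : FlowOn (ns src dst v e f) (nd src dst v e f) ∅ ∅) :
    FlowOn src dst ∅ ∅ := by
  obtain ⟨g, h1, -, h3⟩ := h
  have hg : ∀ x, g x ≠ 0 := fun x => h3 x (notMem_empty _) (notMem_empty _)
  refine ⟨fun x => if x = e then (if dst e = v then g e else - g e)
    else if x = f then (if src f = v then g e else - g e) else g x, fun y => ?_,
    fun x hx => absurd hx (notMem_empty _), fun x _ _ => ?_⟩
  · rw [← h1 y]
    unfold bd
    have hfe : f ∈ (univ : Finset E).erase e := by simp [hef.symm]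
    rw [← add_sum_erase univ _ (mem_univ e), ← add_sum_erase (univ.erase e) _ hfe,
      ← add_sum_erase univ _ (mem_univ e), ← add_sum_erase (univ.erase e) _ hfe]
    rw [← add_assoc, ← add_assoc]
    congr 1
    · simp only [ns, nd, if_true, if_neg hef.symm]
      obtain ⟨e1, e2⟩ := at_ends he
      obtain ⟨f1, f2⟩ := at_ends hf
      generalize oth src dst v e = u at *
      generalize oth src dst v f = w at *
      rcases e2 with ⟨a1, a2⟩ | ⟨a1, a2⟩ <;> rcases f2 with ⟨b1, b2⟩ | ⟨b1, b2⟩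
      · rw [a1, a2, b1, b2, if_neg e1, if_pos rfl]
        by_cases c1 : v = y <;> by_cases c2 : u = y <;> by_cases c3 : w = y <;>
          simp [c1, c2, c3]
      · rw [a1, a2, b1, b2, if_neg e1, if_neg f1]
        by_cases c1 : v = y <;> by_cases c2 : u = y <;> by_cases c3 : w = y <;>
          simp [c1, c2, c3]
      · rw [a1, a2, b1, b2, if_pos rfl]
        by_cases c1 : v = y <;> by_cases c2 : u = y <;> by_cases c3 : w = y <;>
          simp [c1, c2, c3]
      · rw [a1, a2, b1, b2, if_pos rfl, if_neg f1]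
        by_cases c1 : v = y <;> by_cases c2 : u = y <;> by_cases c3 : w = y <;>
          simp [c1, c2, c3]
    · refine sum_congr rfl fun x hx => ?_
      have hxf : x ≠ f := (mem_erase.mp hx).1
      have hxe : x ≠ e := (mem_erase.mp (mem_erase.mp hx).2).1
      simp only [ns, nd, if_neg hxf, if_neg hxe]
  · beta_reduce
    split_ifs
    · exact hg e
    · exact neg_ne_zero.mpr (hg e)
    · exact hg e
    · exact neg_ne_zero.mpr (hg e)
    · exact hg x

end Pool.Agent.Q121.OD
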